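import Pool.Agent.KT3.StmtsC

/-!
# KT3, row ATT: attracting vectors
-/

set_option autoImplicit false

open Matrix Filter Topology

namespace Pool.Agent.KT3.H47

open Pool.Agent.PFS Pool.Agent.PFJ Pool.Agent.NBT

section Bounds

variable {n : ℕ} {C : Set (V n)} {f : V n}

/-- `±u ≤ r f` -/
def Bo (C : Set (V n)) (f : V n) (r : ℝ) (u : V n) : Prop :=
  r • f - u ∈ closure C ∧ r • f + u ∈ closure C

theorem Bo.mono (hP : PCone C) (hf : f ∈ closure C) {r r' : ℝ} {u : V n} (h : Bo C f r u)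
    (hr : r ≤ r') : Bo C f r' u := by
  have h0 : (r' - r) • f ∈ closure C := hP.cl_smul hf (sub_nonneg.2 hr)
  constructor
  · have e : r' • f - u = (r • f - u) + (r' - r) • f := by rw [sub_smul]; abel
    rw [e]; exact hP.cl_add h.1 h0
  · have e : r' • f + u = (r • f + u) + (r' - r) • f := by rw [sub_smul]; abel
    rw [e]; exact hP.cl_add h.2 h0

theorem Bo.add (hP : PCone C) {r r' : ℝ} {u u' : V n} (h : Bo C f r u) (h' : Bo C f r' u') :
    Bo C f (r + r') (u + u') := by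
  constructor
  · have e : (r + r') • f - (u + u') = (r • f - u) + (r' • f - u') := by rw [add_smul]; abel
    rw [e]; exact hP.cl_add h.1 h'.1
  · have e : (r + r') • f + (u + u') = (r • f + u) + (r' • f + u') := by rw [add_smul]; abel
    rw [e]; exact hP.cl_add h.2 h'.2

theorem Bo.smul (hP : PCone C) {r : ℝ} {u : V n} (h : Bo C f r u) (c : ℝ) :
    Bo C f (|c| * r) (c • u) := by
  rcases le_total 0 c with hc | hc
  · rw [abs_of_nonneg hc]
    constructor
    · have e : (c * r) • f - c • u = c • (r • f - u) := by rw [smul_sub, smul_smul]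
      rw [e]; exact hP.cl_smul h.1 hc
    · have e : (c * r) • f + c • u = c • (r • f + u) := by rw [smul_add, smul_smul]
      rw [e]; exact hP.cl_smul h.2 hc
  · rw [abs_of_nonpos hc]
    constructor
    · have e : (-c * r) • f - c • u = (-c) • (r • f + u) := by
        rw [smul_add, smul_smul, neg_smul c u]; abel
      rw [e]; exact hP.cl_smul h.2 (neg_nonneg.2 hc)
    · have e : (-c * r) • f + c • u = (-c) • (r • f - u) := by
        rw [smul_sub, smul_smul, neg_smul c u]; abel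
      rw [e]; exact hP.cl_smul h.1 (neg_nonneg.2 hc)

theorem Bo.abs {φ : V n →ₗ[ℝ] ℝ} (hφ : ∀ x ∈ closure C, 0 ≤ φ x) (hf1 : φ f = 1) {r : ℝ}
    {u : V n} (h : Bo C f r u) : |φ u| ≤ r := by
  have h1 := hφ _ h.1
  have h2 := hφ _ h.2
  rw [map_sub, map_smul, smul_eq_mul, hf1, mul_one] at h1
  rw [map_add, map_smul, smul_eq_mul, hf1, mul_one] at h2
  rw [abs_le]
  constructor <;> linarith

theorem Bo.norm (hP : PCone C) (f : V n) : ∃ D : ℝ, 0 ≤ D ∧ ∀ (r : ℝ) (u : V n), 0 ≤ r →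
    Bo C f r u → ‖u‖ ≤ D * r := by
  obtain ⟨B, hB, h⟩ := hP.normal
  refine ⟨(2 * B + 1) * ‖f‖, by positivity, fun r u hr hu => ?_⟩
  have e : (2 * r) • f - (r • f + u) = r • f - u := by
    rw [two_mul, add_smul]; abel
  have h1 := h (r • f + u) ((2 * r) • f) hu.2 (by rw [e]; exact hu.1)
  rw [norm_smul, Real.norm_eq_abs, abs_of_nonneg (by positivity)] at h1
  have h2 : ‖u‖ ≤ ‖r • f + u‖ + ‖r • f‖ := by
    have e2 : u = (r • f + u) - r • f := by abel
    calc ‖u‖ = ‖(r • f + u) - r • f‖ := by rw [← e2]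
      _ ≤ _ := norm_sub_le _ _
  have h3 : ‖r • f‖ = r * ‖f‖ := by
    rw [norm_smul, Real.norm_eq_abs, abs_of_nonneg hr]
  rw [h3] at h2
  nlinarith

end Bounds

/-- the normalised map -/
noncomputable def nx {n : ℕ} (φ : V n →ₗ[ℝ] ℝ) (H : V n →ₗ[ℝ] V n) (x : V n) : V n :=
  (φ (H x))⁻¹ • H x

/-- **ATT** -/
theorem att : AttStmt := by
  intro n C hP L f a φ H ε hε hε1 hfL hf haL ha hfa hφ hφa hφf hHL hH hHa1 hHa2 hcon
  have hHa : Bo C f ε (H a - a) := ⟨hHa1, hHa2⟩
  have hBa : Bo C f 1 a := by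
    refine ⟨?_, ?_⟩
    · rw [one_smul]; exact hfa
    · rw [one_smul]; exact hP.cl_add hf ha
  have hc2 : ∀ e ∈ L, ∀ r : ℝ, 0 ≤ r → φ e = 0 → Bo C f r e → Bo C f (r / 100) (H e) :=
    fun e he r hr hφe hB => hcon e he r hr hφe hB.1 hB.2
  -- the invariant set
  obtain ⟨X, hX⟩ : ∃ X : V n → Prop, X = fun x => x ∈ L ∧ φ x = 1 ∧ Bo C f (10 * ε) (x - a) :=
    ⟨_, rfl⟩
  have hXa : X a := by
    rw [hX]
    refine ⟨haL, hφa, ?_⟩
    rw [sub_self]
    refine ⟨?_, ?_⟩
    · rw [sub_zero]; exact hP.cl_smul hf (by positivity)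
    · rw [add_zero]; exact hP.cl_smul hf (by positivity)
  have hcx : ∀ x, X x → |φ (H x) - 1| ≤ 11 / 10 * ε := by
    intro x hx
    rw [hX] at hx
    obtain ⟨hxL, hφx, hB⟩ := hx
    have h1 := hc2 (x - a) (L.sub_mem hxL haL) (10 * ε) (by positivity)
      (by rw [map_sub, hφx, hφa, sub_self]) hB
    have h2 := h1.abs hφ hφf
    have h3 := hHa.abs hφ hφf
    rw [map_sub, hφa] at h3
    rw [map_sub, map_sub] at h2
    have e : φ (H x) - 1 = (φ (H a) - 1) + (φ (H x) - φ (H a)) := by ring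
    rw [e]
    refine (abs_add_le _ _).trans ?_
    linarith
  have hcpos : ∀ x, X x → 98 / 100 ≤ φ (H x) := by
    intro x hx
    have := (abs_le.1 (hcx x hx)).1
    linarith
  have hinv : ∀ x, X x → (φ (H x))⁻¹ ≤ 103 / 100 := by
    intro x hx
    have h1 := hcpos x hx
    rw [inv_le_comm₀ (by linarith) (by norm_num)]
    refine le_trans ?_ h1
    norm_num
  have hstep : ∀ x, X x → Bo C f (3 * ε) (nx φ H x - a) := by
    intro x hx
    have hc := hcx x hx
    have hc0 := hcpos x hx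
    have hci := hinv x hx
    have hx' := hx
    rw [hX] at hx'
    obtain ⟨hxL, hφx, hB⟩ := hx'
    have h1 := hc2 (x - a) (L.sub_mem hxL haL) (10 * ε) (by positivity)
      (by rw [map_sub, hφx, hφa, sub_self]) hB
    have h2 := (hHa.add hP h1).add hP (hBa.smul hP (1 - φ (H x)))
    have e1 : H a - a + H (x - a) + (1 - φ (H x)) • a = H x - φ (H x) • a := by
      rw [map_sub, sub_smul, one_smul]; abel
    rw [e1] at h2
    have h3 : Bo C f (22 / 10 * ε) (H x - φ (H x) • a) := by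
      refine h2.mono hP hf ?_
      rw [abs_sub_comm]
      linarith
    have h4 := h3.smul hP (φ (H x))⁻¹
    have e2 : (φ (H x))⁻¹ • (H x - φ (H x) • a) = nx φ H x - a := by
      unfold nx
      rw [smul_sub, smul_smul, inv_mul_cancel₀ (by linarith), one_smul]
    rw [e2] at h4
    refine h4.mono hP hf ?_
    rw [abs_of_nonneg (inv_nonneg.2 (by linarith))]
    nlinarith
  have hXn : ∀ x, X x → X (nx φ H x) := by
    intro x hx
    have h1 := (hstep x hx).mono hP hf (r' := 10 * ε) (by linarith)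
    have hc0 := hcpos x hx
    rw [hX] at hx ⊢
    refine ⟨L.smul_mem _ (hHL x hx.1), ?_, h1⟩
    unfold nx
    rw [map_smul, smul_eq_mul, inv_mul_cancel₀ (by linarith)]
  have hcontr : ∀ x y, X x → X y → ∀ r : ℝ, 0 ≤ r → Bo C f r (x - y) →
      Bo C f (r / 2) (nx φ H x - nx φ H y) := by
    intro x y hx hy r hr hB
    have hx0 := hcpos x hx
    have hxi := hinv x hx
    have hy0 := hcpos y hy
    have hy1 := hstep y hy
    have hXy := hXn y hy
    rw [hX] at hx hy
    have h1 := hc2 (x - y) (L.sub_mem hx.1 hy.1) r hr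
      (by rw [map_sub, hx.2.1, hy.2.1, sub_self]) hB
    have h2 := h1.abs hφ hφf
    have h3 : Bo C f (1 + 3 * ε) (nx φ H y) := by
      have := hBa.add hP hy1
      have e : a + (nx φ H y - a) = nx φ H y := by abel
      rwa [e] at this
    have h4 := (h1.smul hP (φ (H x))⁻¹).add hP (h3.smul hP ((φ (H y) - φ (H x)) / φ (H x)))
    have e1 : (φ (H x))⁻¹ • H (x - y) + ((φ (H y) - φ (H x)) / φ (H x)) • nx φ H y =
        nx φ H x - nx φ H y := by
      unfold nx
      have e2 : (φ (H y) - φ (H x)) / φ (H x) * (φ (H y))⁻¹ = (φ (H x))⁻¹ - (φ (H y))⁻¹ := by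
        have hx' : φ (H x) ≠ 0 := by linarith
        have hy' : φ (H y) ≠ 0 := by linarith
        field_simp
      rw [smul_smul, e2, map_sub, smul_sub, sub_smul]; abel
    rw [e1] at h4
    refine h4.mono hP hf ?_
    rw [abs_of_nonneg (inv_nonneg.2 (by linarith : (0 : ℝ) ≤ φ (H x))), abs_div,
      abs_of_nonneg (by linarith : (0 : ℝ) ≤ φ (H x))]
    have e3 : φ (H (x - y)) = φ (H x) - φ (H y) := by rw [map_sub, map_sub]
    rw [e3, abs_sub_comm] at h2
    have h5 : |φ (H y) - φ (H x)| / φ (H x) ≤ r / 100 * (103 / 100) := by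
      rw [div_eq_mul_inv]
      exact mul_le_mul h2 hxi (inv_nonneg.2 (by linarith)) (by positivity)
    have h6 : (φ (H x))⁻¹ * (r / 100) ≤ 103 / 100 * (r / 100) :=
      mul_le_mul_of_nonneg_right hxi (by positivity)
    have h7 : |φ (H y) - φ (H x)| / φ (H x) * (1 + 3 * ε) ≤ r / 100 * (103 / 100) * (1 + 3 * ε) :=
      mul_le_mul_of_nonneg_right h5 (by positivity)
    nlinarith
  -- the sequence
  obtain ⟨ξ, hξ⟩ : ∃ ξ : ℕ → V n, ξ = fun j => (nx φ H)^[j] a := ⟨_, rfl⟩
  have hξ0 : ξ 0 = a := by rw [hξ]; rfl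
  have hξs : ∀ j, ξ (j + 1) = nx φ H (ξ j) := by
    intro j
    rw [hξ]
    exact Function.iterate_succ_apply' _ _ _
  have hξX : ∀ j, X (ξ j) := by
    intro j
    induction j with
    | zero => rw [hξ0]; exact hXa
    | succ j ih => rw [hξs]; exact hXn _ ih
  have hdist : ∀ j, Bo C f (10 * ε * (1 / 2) ^ j) (ξ (j + 1) - ξ j) := by
    intro j
    induction j with
    | zero =>
      rw [hξs, hξ0, pow_zero, mul_one]
      exact (hstep a hXa).mono hP hf (by linarith)
    | succ j ih =>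
      have h1 := hcontr (ξ (j + 1)) (ξ j) (hξX _) (hξX _) _ (by positivity) ih
      rw [← hξs, ← hξs] at h1
      have e : 10 * ε * (1 / 2) ^ (j + 1) = 10 * ε * (1 / 2) ^ j / 2 := by
        rw [pow_succ]; ring
      rw [e]
      exact h1
  obtain ⟨D, hD, hnorm⟩ := Bo.norm hP f
  have hcauchy : CauchySeq ξ := by
    refine cauchySeq_of_le_geometric (1 / 2) (D * (10 * ε)) (by norm_num) fun j => ?_
    rw [dist_comm, dist_eq_norm, mul_assoc]
    exact hnorm _ _ (by positivity) (hdist j)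
  obtain ⟨x, hx⟩ := cauchySeq_tendsto_of_complete hcauchy
  have hHc : Continuous H := H.continuous_of_finiteDimensional
  have hφc : Continuous φ := φ.continuous_of_finiteDimensional
  have hHx : Tendsto (fun j => H (ξ j)) atTop (𝓝 (H x)) := (hHc.tendsto x).comp hx
  have hcl : Tendsto (fun j => φ (H (ξ j))) atTop (𝓝 (φ (H x))) :=
    (hφc.tendsto (H x)).comp hHx
  have hlo : 98 / 100 ≤ φ (H x) := ge_of_tendsto' hcl fun j => hcpos _ (hξX j)
  have hhi : φ (H x) ≤ 2 := by
    refine le_of_tendsto' hcl fun j => ?_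
    have := (abs_le.1 (hcx _ (hξX j))).2
    linarith
  have hxs : Tendsto (fun j => ξ (j + 1)) atTop (𝓝 x) := (tendsto_add_atTop_iff_nat 1).2 hx
  have hprod : Tendsto (fun j => φ (H (ξ j)) • ξ (j + 1)) atTop (𝓝 (φ (H x) • x)) :=
    hcl.smul hxs
  have heq : ∀ j, φ (H (ξ j)) • ξ (j + 1) = H (ξ j) := by
    intro j
    have := hcpos _ (hξX j)
    rw [hξs]
    unfold nx
    rw [smul_smul, mul_inv_cancel₀ (by linarith), one_smul]
  refine ⟨ξ, x, φ (H x), hξ0, fun j => ⟨?_, ?_⟩, fun j => ?_, hx, by linarith, hhi, ?_⟩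
  · have := hcpos _ (hξX j)
    linarith
  · exact hξs j
  · have h1 := hξX j
    rw [hX] at h1
    exact ⟨h1.1, h1.2.1, h1.2.2.1, h1.2.2.2⟩
  · refine tendsto_nhds_unique hHx ?_
    refine hprod.congr fun j => ?_
    exact heq j

end Pool.Agent.KT3.H47
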