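import Pool.Agent.KT3.StmtsA

/-!
# KT3, row LFI: the leaf under scalings and the group
-/

set_option autoImplicit false

open Matrix Filter Topology

namespace Pool.Agent.KT3.H47

open Pool.Agent.PFS Pool.Agent.PFJ Pool.Agent.NBT

variable {n : ℕ} {C : Set (V n)} {Γ : Subgroup (GL (Fin n) ℝ)}

theorem mem_img_sact {g : GL (Fin n) ℝ} {s : ℝ} (hs : 0 < s) (L : Submodule ℝ (V n)) (x : V n) :
    s • act g x ∈ img g L ↔ x ∈ L := by
  rw [Submodule.smul_mem_iff _ hs.ne', mem_img]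
  constructor
  · rintro ⟨y, hy, e⟩
    rwa [← CC.act_injective g e]
  · intro h
    exact ⟨x, h, rfl⟩

theorem unt_sact (hC : CC C Γ) {g : GL (Fin n) ℝ} (hg : g ∈ Γ) {s : ℝ} (hs : 0 < s)
    (L : Submodule ℝ (V n)) (x : V n) : Unt C (img g L) (s • act g x) ↔ Unt C L x := by
  unfold Unt
  rw [mem_img_sact hs, hC.sact_cl_iff hg hs]
  refine and_congr Iff.rfl (and_congr Iff.rfl ?_)
  constructor
  · intro h z hz
    obtain ⟨M, hM, h1⟩ := h (s • act g z) ((mem_img_sact hs L z).2 hz)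
    refine ⟨M, hM, (hC.sact_cl_iff hg hs).1 ?_⟩
    rw [CC.act_sub, CC.act_smul, smul_sub, smul_comm s M]
    exact h1
  · intro h z hz
    obtain ⟨y, hy, e⟩ := mem_img.1 hz
    obtain ⟨M, hM, h1⟩ := h (s⁻¹ • y) (L.smul_mem _ hy)
    refine ⟨M, hM, ?_⟩
    have h2 := (hC.sact_cl_iff hg hs).2 h1
    have e3 : s • act g (M • x - s⁻¹ • y) = M • s • act g x - z := by
      have e4 : s • s⁻¹ • z = z := by rw [smul_smul, mul_inv_cancel₀ hs.ne', one_smul]
      rw [CC.act_sub, CC.act_smul, CC.act_smul, e, smul_sub, smul_comm s M, e4]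
    rwa [e3] at h2

theorem unt_smul (hP : PCone C) {c : ℝ} (hc : 0 < c) (L : Submodule ℝ (V n)) (x : V n) :
    Unt C L (c • x) ↔ Unt C L x := by
  unfold Unt
  rw [Submodule.smul_mem_iff _ hc.ne', hP.cl_smul_iff hc]
  refine and_congr Iff.rfl (and_congr Iff.rfl ?_)
  constructor
  · intro h z hz
    obtain ⟨M, hM, h1⟩ := h z hz
    refine ⟨M * c, mul_pos hM hc, ?_⟩
    rw [← smul_smul]
    exact h1
  · intro h z hz
    obtain ⟨M, hM, h1⟩ := h z hz
    refine ⟨M * c⁻¹, mul_pos hM (inv_pos.2 hc), ?_⟩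
    rw [smul_smul, mul_assoc, inv_mul_cancel₀ hc.ne', mul_one]
    exact h1

theorem lf_iff {w : Fin 3 → V n} {x : V n} : Lf C w x ↔
    x ∈ BI C w I01 ∧ x ∈ closure C ∧ ¬ Unt C (BI C w I01) x ∧ ∀ c : ℝ, x ≠ c • w 1 :=
  ⟨fun h => ⟨h.mem, h.cl, h.non, h.ne⟩, fun h => ⟨h.1, h.2.1, h.2.2.1, h.2.2.2⟩⟩

/-- **LFI** -/
theorem lfi (hWii : WiiStmt) : LfiStmt := by
  intro n C Γ d hH w hw x
  have hI : HI C Γ 3 I01 d := hH.toHI
  have hCC : CC C Γ := hI.toHK.toCC
  obtain ⟨h1, h2, -⟩ := hWii n C Γ 3 I01 d hI w hw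
  refine ⟨?_, ?_, ?_⟩
  · intro r hr
    rw [lf_iff, lf_iff, (h1 r hr).2]
    refine and_congr Iff.rfl (and_congr Iff.rfl (and_congr Iff.rfl ?_))
    constructor
    · intro h c e
      refine h (c * (r 1)⁻¹) ?_
      show x = (c * (r 1)⁻¹) • r 1 • w 1
      rw [smul_smul, mul_assoc, inv_mul_cancel₀ (hr 1).ne', mul_one]
      exact e
    · intro h c e
      refine h (c * r 1) ?_
      rw [← smul_smul]
      exact e
  · intro g hg s hs
    rw [lf_iff, lf_iff, (h2 g hg s hs).2, mem_img_sact hs, hCC.sact_cl_iff hg hs,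
      unt_sact hCC hg hs]
    refine and_congr Iff.rfl (and_congr Iff.rfl (and_congr Iff.rfl ?_))
    constructor
    · intro h c e
      refine h c ?_
      show s • act g x = c • s • act g (w 1)
      rw [e, CC.act_smul, smul_comm]
    · intro h c e
      refine h c (CC.act_injective g ?_)
      have e' : s • act g x = c • s • act g (w 1) := e
      rw [smul_comm c s] at e'
      rw [CC.act_smul]
      exact smul_right_injective _ hs.ne' e'
  · intro c hc
    rw [lf_iff, lf_iff, Submodule.smul_mem_iff _ hc.ne', hCC.toPCone.cl_smul_iff hc,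
      unt_smul hCC.toPCone hc]
    refine and_congr Iff.rfl (and_congr Iff.rfl (and_congr Iff.rfl ?_))
    constructor
    · intro h b e
      refine h (c * b) ?_
      rw [e, smul_smul]
    · intro h b e
      refine h (c⁻¹ * b) ?_
      rw [← smul_smul, ← e, smul_smul, inv_mul_cancel₀ hc.ne', one_smul]

end Pool.Agent.KT3.H47
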